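import Pool.Agent.Helper6.NX.GoalsB

/-!
# NX, packet SEL: selection of the position
-/

namespace Pool.Agent.Helper20.NX

theorem tele (V : ℕ → ℝ) (a L m : ℕ) :
    ∑ i ∈ Finset.range m, (V (a + i) - V (a + i + L)) =
      ∑ j ∈ Finset.range L, (V (a + j) - V (a + m + j)) := by
  induction m with
  | zero => simp
  | succ m ih =>
    rw [Finset.sum_range_succ, ih]
    have h1 : ∑ j ∈ Finset.range L, (V (a + m + j) - V (a + m + (j + 1)))
        = V (a + m + 0) - V (a + m + L) := Finset.sum_range_sub' (fun j => V (a + m + j)) L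
    have h2 : ∑ j ∈ Finset.range L, (V (a + j) - V (a + (m + 1) + j)) =
        ∑ j ∈ Finset.range L, (V (a + j) - V (a + m + j)) +
        ∑ j ∈ Finset.range L, (V (a + m + j) - V (a + m + (j + 1))) := by
      rw [← Finset.sum_add_distrib]
      apply Finset.sum_congr rfl
      intro j _
      have : a + (m + 1) + j = a + m + (j + 1) := by omega
      rw [this]
      ring
    rw [h2, h1, add_zero]

theorem thmSEL : Pool.Agent.Helper6.NX.S_SEL := by
  classical
  intro n B L V W K C τ η hC hη hη2 hτ hL hηK hV hVn hK hW hWs _ hB hBC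
  have hK0 : 0 < K := by
    by_contra hc
    push Not at hc
    have : η * K ≤ 0 := mul_nonpos_of_nonneg_of_nonpos hη.le hc
    linarith
  have hanti : Antitone V := antitone_nat_of_succ_le (fun k => (hV k).2.2)
  set T : ℕ → ℝ := fun k => K - ∑ i ∈ Finset.range k, V i with hT
  have hTs : ∀ k, T (k + 1) = T k - V k := by
    intro k
    simp only [hT]
    rw [Finset.sum_range_succ]
    ring
  have hTa : Antitone T := antitone_nat_of_succ_le (fun k => by rw [hTs]; linarith [(hV k).1])
  have hT0 : T 0 = K := by simp [hT]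
  have hTB : T B ≤ η * K := hB
  have hηK0 : 0 < η * K := by linarith
  have exa : ∃ k, T k ≤ 2 * η * K := ⟨B, by nlinarith⟩
  have exb : ∃ k, T k ≤ η * K := ⟨B, hTB⟩
  set a := Nat.find exa with ha
  set b := Nat.find exb with hb
  have hTa1 : T a ≤ 2 * η * K := Nat.find_spec exa
  have hTb1 : T b ≤ η * K := Nat.find_spec exb
  have hbB : b ≤ B := Nat.find_min' exb hTB
  have hab : a ≤ b := Nat.find_min' exa (by nlinarith)
  have hTa2 : 2 * η * K - 1 ≤ T a := by
    rcases Nat.eq_zero_or_pos a with h0 | h0
    · rw [h0, hT0]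
      nlinarith
    · obtain ⟨a', ha'⟩ : ∃ a', a = a' + 1 := ⟨a - 1, by omega⟩
      have h1 : ¬ T a' ≤ 2 * η * K := Nat.find_min exa (by omega)
      push Not at h1
      rw [ha', hTs]
      linarith [(hV a').2.1]
  have hsumT : ∀ m, a ≤ m → ∑ i ∈ Finset.Ico a m, V i = T a - T m := by
    intro m hm
    rw [Finset.sum_Ico_eq_sub _ hm]
    simp only [hT]
    ring
  have hs1 : 7 / 8 * (η * K) ≤ ∑ i ∈ Finset.Ico a b, V i := by
    rw [hsumT b hab]
    linarith
  set G := (Finset.Ico a b).filter (fun i => η / (8 * C) ≤ V i) with hG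
  set G' := (Finset.Ico a b).filter (fun i => ¬ η / (8 * C) ≤ V i) with hG'
  have hsplit : ∑ i ∈ G, V i + ∑ i ∈ G', V i = ∑ i ∈ Finset.Ico a b, V i :=
    Finset.sum_filter_add_sum_filter_not _ _ _
  have hG'1 : ∑ i ∈ G', V i ≤ 3 / 8 * (η * K) := by
    have h1 : ∑ i ∈ G', V i ≤ G'.card • (η / (8 * C)) := by
      apply Finset.sum_le_card_nsmul
      intro i hi
      rw [hG', Finset.mem_filter] at hi
      exact (not_le.mp hi.2).le
    have h2 : (G'.card : ℝ) ≤ B := by
      have h3 : G'.card ≤ B := by
        calc G'.card ≤ (Finset.Ico a b).card := Finset.card_filter_le _ _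
          _ = b - a := Nat.card_Ico a b
          _ ≤ B := by omega
      exact_mod_cast h3
    rw [nsmul_eq_mul] at h1
    have h4 : (G'.card : ℝ) * (η / (8 * C)) ≤ 3 * C * K * (η / (8 * C)) := by
      apply mul_le_mul_of_nonneg_right (h2.trans hBC)
      positivity
    have h5 : 3 * C * K * (η / (8 * C)) = 3 / 8 * (η * K) := by
      field_simp
    linarith
  have hGs : 1 / 2 * (η * K) ≤ ∑ i ∈ G, V i := by linarith
  have hGc : 1 / 2 * (η * K) ≤ (G.card : ℝ) := by
    have h1 : ∑ i ∈ G, V i ≤ G.card • (1 : ℝ) :=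
      Finset.sum_le_card_nsmul _ _ _ (fun i _ => (hV i).2.1)
    rw [nsmul_eq_mul, mul_one] at h1
    linarith
  -- first kind of bad positions
  set B1 := G.filter (fun i => 4 * τ / η < W i) with hB1
  have hB1c : (B1.card : ℝ) < 1 / 4 * (η * K) := by
    rcases B1.eq_empty_or_nonempty with h0 | h0
    · rw [h0]
      simp only [Finset.card_empty, Nat.cast_zero]
      linarith
    · have h1 : B1.card • (4 * τ / η) < ∑ i ∈ B1, W i := by
        rw [← Finset.sum_const]
        apply Finset.sum_lt_sum_of_nonempty h0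
        intro i hi
        rw [hB1, Finset.mem_filter] at hi
        exact hi.2
      have h2 : ∑ i ∈ B1, W i ≤ ∑ i ∈ Finset.range n, W i := by
        apply Finset.sum_le_sum_of_subset_of_nonneg
        · intro i hi
          rw [hB1, Finset.mem_filter, hG, Finset.mem_filter] at hi
          rw [Finset.mem_range]
          by_contra hc
          push Not at hc
          have h3 := hVn i hc
          have h4 : 0 < η / (8 * C) := by positivity
          linarith [hi.1.2]
        · intro i _ _
          exact hW i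
      rw [nsmul_eq_mul] at h1
      have h3 : (B1.card : ℝ) * (4 * τ / η) < τ * K := by linarith
      have h4 : (B1.card : ℝ) * (4 * τ / η) = (B1.card : ℝ) * 4 / η * τ := by ring
      rw [h4, mul_comm τ K] at h3
      have h5 : (B1.card : ℝ) * 4 / η < K := lt_of_mul_lt_mul_right h3 hτ.le
      rw [div_lt_iff₀ hη] at h5
      linarith
  -- second kind of bad positions
  set B2 := G.filter (fun i => 4 * (L : ℝ) / (η * K) < V i - V (i + L)) with hB2
  have hLpos : (0 : ℝ) < L := by exact_mod_cast hL
  have htot : ∑ i ∈ Finset.Ico a b, (V i - V (i + L)) ≤ L := by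
    rw [Finset.sum_Ico_eq_sum_range]
    have h1 := tele V a L (b - a)
    rw [h1]
    have h2 : ∑ j ∈ Finset.range L, (V (a + j) - V (a + (b - a) + j)) ≤
        (Finset.range L).card • (1 : ℝ) := by
      apply Finset.sum_le_card_nsmul
      intro j _
      linarith [(hV (a + j)).2.1, (hV (a + (b - a) + j)).1]
    rw [Finset.card_range, nsmul_eq_mul, mul_one] at h2
    exact h2
  have hB2c : (B2.card : ℝ) < 1 / 4 * (η * K) := by
    rcases B2.eq_empty_or_nonempty with h0 | h0
    · rw [h0]
      simp only [Finset.card_empty, Nat.cast_zero]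
      linarith
    · have h1 : B2.card • (4 * (L : ℝ) / (η * K)) < ∑ i ∈ B2, (V i - V (i + L)) := by
        rw [← Finset.sum_const]
        apply Finset.sum_lt_sum_of_nonempty h0
        intro i hi
        rw [hB2, Finset.mem_filter] at hi
        exact hi.2
      have h2 : ∑ i ∈ B2, (V i - V (i + L)) ≤ ∑ i ∈ Finset.Ico a b, (V i - V (i + L)) := by
        apply Finset.sum_le_sum_of_subset_of_nonneg
        · intro i hi
          rw [hB2, Finset.mem_filter, hG, Finset.mem_filter] at hi
          exact hi.1.1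
        · intro i _ _
          have := hanti (Nat.le_add_right i L)
          linarith
      rw [nsmul_eq_mul] at h1
      have h3 : (B2.card : ℝ) * (4 * (L : ℝ) / (η * K)) < L := by linarith
      have h4 : (B2.card : ℝ) * (4 * (L : ℝ) / (η * K)) = (B2.card : ℝ) * 4 / (η * K) * L := by
        ring
      rw [h4] at h3
      have h5 : (B2.card : ℝ) * 4 / (η * K) * L < 1 * L := by linarith
      have h6 : (B2.card : ℝ) * 4 / (η * K) < 1 := lt_of_mul_lt_mul_right h5 hLpos.le
      rw [div_lt_iff₀ hηK0] at h6
      linarith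
  -- a good position
  have hex : ∃ k ∈ G, k ∉ B1 ∪ B2 := by
    by_contra hc
    push Not at hc
    have h1 : G ⊆ B1 ∪ B2 := hc
    have h2 := (Finset.card_le_card h1).trans (Finset.card_union_le _ _)
    have h3 : (G.card : ℝ) ≤ B1.card + B2.card := by exact_mod_cast h2
    linarith
  obtain ⟨k, hkG, hkB⟩ := hex
  rw [Finset.mem_union, not_or] at hkB
  have hkG' := hkG
  rw [hG, Finset.mem_filter, Finset.mem_Ico] at hkG'
  refine ⟨k, by omega, ?_, ?_, hkG'.2, ?_, ?_⟩
  · by_contra hc
    push Not at hc
    have h3 := hVn k hc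
    have h4 : 0 < η / (8 * C) := by positivity
    linarith [hkG'.2]
  · have h1 := hTa hkG'.1.1
    have h2 : T k ≤ 2 * η * K := h1.trans hTa1
    exact h2
  · by_contra hc
    push Not at hc
    exact hkB.1 (by rw [hB1, Finset.mem_filter]; exact ⟨hkG, hc⟩)
  · by_contra hc
    push Not at hc
    exact hkB.2 (by rw [hB2, Finset.mem_filter]; exact ⟨hkG, hc⟩)

end Pool.Agent.Helper20.NX
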